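import Mathlib
import Pool.Agent.H80.Local

/-!
Ten points of the plane with two Steiner trees, both of which are `r`-minimizers for the same
ten-point set, for every sufficiently small `r`.
-/

set_option autoImplicit false

namespace Pool.Agent.Results.MP_93ef73_gt.TwoMinimizers

open MeasureTheory

/-- `S` is a Steiner tree for `A`: a shortest continuum containing `A`. -/
def IsSteinerTree (A S : Set (EuclideanSpace ℝ (Fin 2))) : Prop :=
  IsCompact S ∧ IsConnected S ∧ A ⊆ S ∧ Measure.hausdorffMeasure 1 S < ⊤ ∧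
    ∀ S' : Set (EuclideanSpace ℝ (Fin 2)), IsCompact S' → IsConnected S' → A ⊆ S' →
      Measure.hausdorffMeasure 1 S ≤ Measure.hausdorffMeasure 1 S'

/-- `S` is an `r`-minimizer for `M`: a shortest continuum with all points of `M` within `r`. -/
def IsMinimizer (r : ℝ) (M S : Set (EuclideanSpace ℝ (Fin 2))) : Prop :=
  IsCompact S ∧ IsConnected S ∧ (∀ y ∈ M, Metric.infDist y S ≤ r) ∧
    ∀ W : Set (EuclideanSpace ℝ (Fin 2)), IsCompact W → IsConnected W →
      (∀ y ∈ M, Metric.infDist y W ≤ r) →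
        Measure.hausdorffMeasure 1 S ≤ Measure.hausdorffMeasure 1 W

/-- `a` lies in the relative interior of a nondegenerate segment contained in `S`. -/
def InteriorToSegment (S : Set (EuclideanSpace ℝ (Fin 2))) (a : EuclideanSpace ℝ (Fin 2)) : Prop :=
  ∃ x y : EuclideanSpace ℝ (Fin 2), x ≠ y ∧ segment ℝ x y ⊆ S ∧ a ∈ openSegment ℝ x y

theorem result : ∃ A S T : Set (EuclideanSpace ℝ (Fin 2)),
    A.ncard = 10 ∧ IsSteinerTree A S ∧ IsSteinerTree A T ∧ S ≠ T ∧
    (∀ a ∈ A, ¬ InteriorToSegment S a ∧ ¬ InteriorToSegment T a) ∧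
    ∃ r₀ : ℝ, 0 < r₀ ∧ ∀ r : ℝ, 0 < r → r ≤ r₀ →
      ∃ m : EuclideanSpace ℝ (Fin 2) → EuclideanSpace ℝ (Fin 2),
        (∀ a ∈ A, dist (m a) a = r) ∧ Set.InjOn m A ∧
        IsMinimizer r (m '' A) S ∧ IsMinimizer r (m '' A) T := by
  classical
  have hsub : ∀ j, Set.range H80.pt ⊆ H80.Tr j := by
    rintro j _ ⟨p, rfl⟩
    exact H80.pt_mem_Tr j p
  have hclose : ∀ r : ℝ, 0 < r → ∀ W : Set H80.E2, Set.range H80.pt ⊆ W → ∀ p,
      Metric.infDist (H80.ctr r p) W ≤ r := by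
    intro r hr W hW p
    refine (Metric.infDist_le_dist_of_mem (hW ⟨p, rfl⟩)).trans ?_
    rw [H80.dist_ctr_pt r hr p]
  have hsteiner : ∀ j : Fin 5, H80.ax j = 1 / 2 → IsSteinerTree (Set.range H80.pt) (H80.Tr j) := by
    intro j hj
    refine ⟨H80.isCompact_Tr j, H80.isConnected_Tr j, hsub j,
      (H80.measure_Tr_le j hj).trans_lt ENNReal.ofReal_lt_top, fun S' h1 h2 h3 => ?_⟩
    exact (H80.measure_Tr_le j hj).trans
      (H80.lower_bound (1 / 100) (by norm_num) le_rfl S' h1 h2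
        (hclose (1 / 100) (by norm_num) S' h3))
  refine ⟨Set.range H80.pt, H80.Tr 1, H80.Tr 3, ?_, hsteiner 1 H80.a1, hsteiner 3 H80.a3,
    H80.Tr_ne, ?_, 1 / 100, by norm_num, fun r hr0 hr1 => ?_⟩
  · rw [Set.ncard_range_of_injective H80.pt_inj]
    simp
  · rintro _ ⟨p, rfl⟩
    exact ⟨H80.not_inSeg_Tr 1 (Or.inl rfl) p, H80.not_inSeg_Tr 3 (Or.inr rfl) p⟩
  · -- the map sending each terminal to its ball centre
    let m : H80.E2 → H80.E2 := fun z =>
      if h : ∃ p, H80.pt p = z then H80.ctr r h.choose else z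
    have hm : ∀ p, m (H80.pt p) = H80.ctr r p := by
      intro p
      have h : ∃ p', H80.pt p' = H80.pt p := ⟨p, rfl⟩
      have h1 : m (H80.pt p) = H80.ctr r h.choose := dif_pos h
      rw [h1, H80.pt_inj h.choose_spec]
    have himg : m '' Set.range H80.pt = Set.range (H80.ctr r) := by
      ext z
      constructor
      · rintro ⟨_, ⟨p, rfl⟩, rfl⟩
        exact ⟨p, (hm p).symm⟩
      · rintro ⟨p, rfl⟩
        exact ⟨H80.pt p, ⟨p, rfl⟩, hm p⟩
    have hmin : ∀ j : Fin 5, H80.ax j = 1 / 2 →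
        IsMinimizer r (m '' Set.range H80.pt) (H80.Tr j) := by
      intro j hj
      rw [himg]
      refine ⟨H80.isCompact_Tr j, H80.isConnected_Tr j, ?_, ?_⟩
      · rintro _ ⟨p, rfl⟩
        exact hclose r hr0 _ (hsub j) p
      · intro W h1 h2 h3
        exact (H80.measure_Tr_le j hj).trans
          (H80.lower_bound r hr0 hr1 W h1 h2 (fun p => h3 _ ⟨p, rfl⟩))
    refine ⟨m, ?_, ?_, hmin 1 H80.a1, hmin 3 H80.a3⟩
    · rintro _ ⟨p, rfl⟩
      rw [hm]
      exact H80.dist_ctr_pt r hr0 p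
    · rintro _ ⟨p, rfl⟩ _ ⟨p', rfl⟩ h
      rw [hm, hm] at h
      rw [H80.ctr_inj r hr0 hr1 h]

end Pool.Agent.Results.MP_93ef73_gt.TwoMinimizers
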